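import Pool.Agent.Run7.h952.LW.Codes

/-!
# Interval exchange transformations with well approximable lengths
-/

set_option autoImplicit false

namespace Run7.h952.LW

open Finset Filter

variable {n : ℕ}

/-- commensurable lengths: a periodic orbit at distance `r / 2` from the endpoints -/
lemma comm_orbit (hn : 0 < n) (π : Equiv.Perm (Fin n)) {lam : Fin n → ℝ} (h : ∀ i, 0 < lam i)
    (r : ℝ) (hr : 0 < r) (a : Fin n → ℤ) (ha : ∀ i, lam i = a i * r) :
    ∃ (p : ℕ) (w : ℕ → ℝ) (t : ℕ → Fin n), 1 ≤ p ∧ (p : ℝ) * r ≤ ∑ j, lam j + 3 * r ∧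
      (∀ k, lf lam (t k) + r / 2 ≤ w k ∧ w k ≤ lf lam (t k) + lam (t k) - r / 2) ∧
      (∀ k, w (k + 1) = w k - lf lam (t k) + rg lam π (t k)) ∧ ∀ k, t (k + p) = t k := by
  set A : ℝ := ∑ j, lam j with hA
  have hlfz : ∀ i, ∃ m : ℤ, lf lam i = m * r := by
    intro i
    refine ⟨∑ j ∈ univ.filter (fun j => j < i), a j, ?_⟩
    unfold lf
    push_cast
    rw [sum_mul]
    exact sum_congr rfl fun j _ => ha j
  have hrgz : ∀ i, ∃ m : ℤ, rg lam π i = m * r := by
    intro i
    refine ⟨∑ j ∈ univ.filter (fun j => π j < π i), a j, ?_⟩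
    unfold rg
    push_cast
    rw [sum_mul]
    exact sum_congr rfl fun j _ => ha j
  have hlamr : ∀ i, r ≤ lam i := by
    intro i
    have h1 := h i
    rw [ha] at h1 ⊢
    have h2 : (0 : ℝ) < a i := by
      by_contra hc
      push Not at hc
      nlinarith
    have h3 : (1 : ℤ) ≤ a i := by
      have : (0 : ℤ) < a i := by exact_mod_cast h2
      omega
    have h4 : (1 : ℝ) ≤ a i := by exact_mod_cast h3
    nlinarith
  have hA1 : r ≤ A := (hlamr ⟨0, hn⟩).trans
    (single_le_sum (f := lam) (fun i _ => (h i).le) (mem_univ _))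
  obtain ⟨y, s, H, hy0⟩ := exists_orb h π (show (0 : ℝ) ≤ r / 2 by positivity)
    (show r / 2 < ∑ j, lam j by linarith)
  have hform : ∀ k, ∃ m : ℤ, y k = (m + 1 / 2) * r := by
    intro k
    induction k with
    | zero =>
      refine ⟨0, ?_⟩
      rw [hy0]
      push_cast
      ring
    | succ k ih =>
      obtain ⟨m, hm⟩ := ih
      obtain ⟨m₁, hm₁⟩ := hlfz (s k)
      obtain ⟨m₂, hm₂⟩ := hrgz (s k)
      refine ⟨m - m₁ + m₂, ?_⟩
      rw [H.step, hm]
      unfold lf at hm₁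
      unfold rg at hm₂
      unfold lf rg
      rw [hm₁, hm₂]
      push_cast
      ring
  choose m hm using hform
  -- the positions are bounded
  have hbd : ∀ k, 0 ≤ m k ∧ (m k : ℝ) * r < A := by
    intro k
    have h1 := (lf_nonneg h (s k)).trans (H.le k)
    have h2 : y k < A := (H.lt k).trans_le (lf_add_total h (s k))
    rw [hm k] at h1 h2
    have h3 : (0 : ℝ) ≤ m k + 1 / 2 := by
      by_contra hc
      push Not at hc
      nlinarith
    have h4 : (-1 : ℝ) < m k := by linarith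
    have h5 : (-1 : ℤ) < m k := by exact_mod_cast h4
    exact ⟨by omega, by nlinarith⟩
  set M : ℕ := ⌊A / r⌋₊ + 1 with hM
  have hbd' : ∀ k, (m k).toNat < M := by
    intro k
    obtain ⟨h1, h2⟩ := hbd k
    have h3 : ((m k).toNat : ℝ) = m k := by
      have : ((m k).toNat : ℤ) = m k := Int.toNat_of_nonneg h1
      exact_mod_cast this
    have h4 : ((m k).toNat : ℝ) ≤ A / r := by
      rw [h3, le_div_iff₀ hr]
      exact h2.le
    have h5 := Nat.le_floor h4
    omega
  have hmaps : ∀ k ∈ range (M + 1), (m k).toNat ∈ range M := fun k _ => mem_range.2 (hbd' k)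
  obtain ⟨c, hc, d, hd, hne, he⟩ := Finset.exists_ne_map_eq_of_card_lt_of_maps_to
    (by simp) hmaps
  obtain ⟨c, d, hcd, hd, hmm⟩ : ∃ c d : ℕ, c < d ∧ d < M + 1 ∧ m c = m d := by
    have he' : m c = m d := by
      have h1 := Int.toNat_of_nonneg (hbd c).1
      have h2 := Int.toNat_of_nonneg (hbd d).1
      rw [← h1, ← h2, he]
    rw [mem_range] at hc hd
    rcases lt_or_gt_of_ne hne with h1 | h1
    · exact ⟨c, d, h1, hd, he'⟩
    · exact ⟨d, c, h1, hc, he'.symm⟩
  have hyy : ∀ k l, m k = m l → y k = y l := by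
    intro k l hkl
    rw [hm k, hm l, hkl]
  have hp : ∀ k, y (c + k + (d - c)) = y (c + k) ∧ s (c + k + (d - c)) = s (c + k) := by
    have hs : ∀ k l, y k = y l → s k = s l := by
      intro k l hkl
      apply H.idx h
      · rw [hkl]; exact H.le l
      · rw [hkl]; exact H.lt l
    intro k
    have h1 : y (c + k + (d - c)) = y (c + k) := by
      induction k with
      | zero =>
        rw [add_zero, show c + (d - c) = d by omega]
        exact (hyy c d hmm).symm
      | succ k ih =>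
        rw [show c + (k + 1) + (d - c) = c + k + (d - c) + 1 by ring, H.step, ih, hs _ _ ih,
          ← H.step, add_assoc]
    exact ⟨h1, hs _ _ h1⟩
  refine ⟨d - c, fun k => y (c + k), fun k => s (c + k), by omega, ?_, ?_, ?_, ?_⟩
  · have h1 : ((d - c : ℕ) : ℝ) ≤ A / r + 2 := by
      have h2 : ((d - c : ℕ) : ℝ) ≤ (M : ℝ) := by exact_mod_cast (show d - c ≤ M by omega)
      have h3 : (M : ℝ) ≤ A / r + 1 := by
        rw [hM]
        push_cast
        have := Nat.floor_le (show 0 ≤ A / r from div_nonneg (by linarith) hr.le)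
        linarith
      linarith
    calc ((d - c : ℕ) : ℝ) * r ≤ (A / r + 2) * r := by gcongr
      _ = A + 2 * r := by field_simp
      _ ≤ A + 3 * r := by linarith
  · intro k
    obtain ⟨m₁, hm₁⟩ := hlfz (s (c + k))
    have h1 := H.le (c + k)
    have h2 := H.lt (c + k)
    have e1 : lf lam (s (c + k)) ≤ y (c + k) := h1
    have e2 : y (c + k) < lf lam (s (c + k)) + lam (s (c + k)) := h2
    show lf lam (s (c + k)) + r / 2 ≤ y (c + k) ∧
      y (c + k) ≤ lf lam (s (c + k)) + lam (s (c + k)) - r / 2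
    rw [hm (c + k)] at e1 e2 ⊢
    rw [hm₁] at e1 e2 ⊢
    rw [ha] at e2 ⊢
    constructor
    · have h3 : (m₁ : ℝ) ≤ m (c + k) + 1 / 2 := by
        by_contra hcc
        push Not at hcc
        nlinarith
      have h4 : (m₁ : ℝ) < m (c + k) + 1 := by linarith
      have h5 : m₁ < m (c + k) + 1 := by exact_mod_cast h4
      have h6 : (m₁ : ℝ) ≤ m (c + k) := by exact_mod_cast (show m₁ ≤ m (c + k) by omega)
      nlinarith
    · have h3 : (m (c + k) : ℝ) + 1 / 2 < m₁ + a (s (c + k)) := by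
        by_contra hcc
        push Not at hcc
        nlinarith
      have h4 : (m (c + k) : ℝ) < m₁ + a (s (c + k)) := by linarith
      have h5 : m (c + k) < m₁ + a (s (c + k)) := by exact_mod_cast h4
      have h6 : (m (c + k) : ℝ) + 1 ≤ m₁ + a (s (c + k)) := by
        exact_mod_cast (show m (c + k) + 1 ≤ m₁ + a (s (c + k)) by omega)
      nlinarith
  · intro k
    show y (c + (k + 1)) = _
    rw [← add_assoc, H.step]
  · intro k
    show s (c + (k + (d - c))) = _
    rw [← add_assoc]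
    exact (hp k).2

lemma lf_diff {lam mu : Fin n → ℝ} {δ : ℝ} (hδ : ∀ i, |lam i - mu i| ≤ δ) (i : Fin n) :
    |lf lam i - lf mu i| ≤ n * δ := by
  have hδ0 : 0 ≤ δ := (abs_nonneg _).trans (hδ i)
  unfold lf
  rw [← sum_sub_distrib]
  refine (abs_sum_le_sum_abs _ _).trans ((sum_le_sum fun j _ => hδ j).trans ?_)
  rw [sum_const, nsmul_eq_mul]
  gcongr
  exact (card_filter_le _ _).trans (by simp)

lemma rg_diff (π : Equiv.Perm (Fin n)) {lam mu : Fin n → ℝ} {δ : ℝ} (hδ : ∀ i, |lam i - mu i| ≤ δ)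
    (i : Fin n) : |rg lam π i - rg mu π i| ≤ n * δ := by
  have hδ0 : 0 ≤ δ := (abs_nonneg _).trans (hδ i)
  unfold rg
  rw [← sum_sub_distrib]
  refine (abs_sum_le_sum_abs _ _).trans ((sum_le_sum fun j _ => hδ j).trans ?_)
  rw [sum_const, nsmul_eq_mul]
  gcongr
  exact (card_filter_le _ _).trans (by simp)

lemma margin {lf₁ lf₂ l₁ l₂ w₁ w₂ x y δ r : ℝ} (h1 : |lf₁ - lf₂| ≤ x) (h2 : |w₁ - w₂| ≤ y)
    (h3 : |l₁ - l₂| ≤ δ) (h4 : lf₂ + r / 2 ≤ w₂ ∧ w₂ ≤ lf₂ + l₂ - r / 2) (hδ : 0 < δ)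
    (hk : y + x + δ < r / 2) : lf₁ < w₁ ∧ w₁ < lf₁ + l₁ := by
  rw [abs_le] at h1 h2 h3
  obtain ⟨a1, a2⟩ := h1
  obtain ⟨b1, b2⟩ := h2
  obtain ⟨c1, c2⟩ := h3
  obtain ⟨d1, d2⟩ := h4
  constructor <;> linarith

/-- **well approximable lengths** -/
theorem approx_pow (hn : 0 < n) (π : Equiv.Perm (Fin n)) {lam : Fin n → ℝ} (h : ∀ i, 0 < lam i)
    (hap : ∀ ε : ℝ, 0 < ε → ∃ r : ℝ, 0 < r ∧ r < 1 ∧ ∃ a : Fin n → ℤ, ∀ i,
      |lam i - a i * r| < ε * r ^ 2) (N : ℕ) : HasPow lam π N := by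
  obtain ⟨c, hc, hcl⟩ : ∃ c : ℝ, 0 < c ∧ ∀ i, c ≤ lam i := by
    have hne : (univ : Finset (Fin n)).Nonempty := ⟨⟨0, hn⟩, mem_univ _⟩
    exact ⟨univ.inf' hne lam, (Finset.lt_inf'_iff hne).2 fun k _ => h k,
      fun i => inf'_le _ (mem_univ i)⟩
  set A : ℝ := ∑ j, lam j with hA
  have hA0 : 0 < A := (h ⟨0, hn⟩).trans_le
    (single_le_sum (f := lam) (fun i _ => (h i).le) (mem_univ _))
  have hnr : (1 : ℝ) ≤ n := by exact_mod_cast hn
  set C : ℝ := 2 * (N + 1) * (A + 4) * n + n + 1 with hC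
  have hC0 : 0 < C := by positivity
  obtain ⟨r, hr, hr1, a, ha⟩ := hap (min (min c 1 / (2 * n)) (1 / (4 * C))) (by positivity)
  set δ : ℝ := min (min c 1 / (2 * n)) (1 / (4 * C)) * r ^ 2 with hδ
  have hδ0 : 0 < δ := by positivity
  have hr2 : r ^ 2 ≤ 1 := by nlinarith
  have hδ1 : δ ≤ min c 1 / (2 * n) := by
    calc δ ≤ min (min c 1 / (2 * n)) (1 / (4 * C)) * 1 := by
          rw [hδ]; gcongr
      _ ≤ _ := by rw [mul_one]; exact min_le_left _ _
  have hδ2 : C * δ ≤ r / 4 := by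
    calc C * δ ≤ C * (1 / (4 * C) * r ^ 2) := by
          rw [hδ]; gcongr; exact min_le_right _ _
      _ = r ^ 2 / 4 := by field_simp
      _ ≤ r / 4 := by nlinarith
  have hδc : n * δ ≤ min c 1 / 2 := by
    calc n * δ ≤ n * (min c 1 / (2 * n)) := by gcongr
      _ = min c 1 / 2 := by field_simp
  have hδc' : δ < c := by
    have h1 : min c 1 ≤ c := min_le_left _ _
    nlinarith
  have hδA : n * δ ≤ 1 := by
    have h1 : min c 1 ≤ 1 := min_le_right _ _
    linarith
  let mu : Fin n → ℝ := fun i => a i * r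
  have hmu : ∀ i, |lam i - mu i| ≤ δ := fun i => (ha i).le
  have hmu0 : ∀ i, 0 < mu i := by
    intro i
    have h1 := hcl i
    have h2 := (abs_le.1 (hmu i)).2
    linarith
  obtain ⟨p, w, t, hp, hpr, hin, hst, hper⟩ := comm_orbit hn π hmu0 r hr a fun i => rfl
  have hAmu : ∑ j, mu j ≤ A + 1 := by
    have h1 : ∑ j, mu j - A ≤ ∑ _j : Fin n, δ := by
      rw [hA, ← sum_sub_distrib]
      exact sum_le_sum fun j _ => by have := (abs_le.1 (hmu j)).1; linarith
    rw [sum_const, card_univ, Fintype.card_fin, nsmul_eq_mul] at h1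
    linarith
  have hpos : ∀ k, |pos lam π (w 0) t k - w k| ≤ k * (2 * n * δ) := by
    intro k
    induction k with
    | zero => simp [pos]
    | succ k ih =>
      have e1 : pos lam π (w 0) t (k + 1) = pos lam π (w 0) t k +
          (rg lam π (t k) - lf lam (t k)) := by
        rw [pos, pos, sum_range_succ]
        ring
      rw [e1, hst k]
      have h1 := lf_diff hmu (t k)
      have h2 := rg_diff π hmu (t k)
      rw [abs_le] at ih h1 h2 ⊢
      push_cast
      constructor <;> nlinarith [ih.1, ih.2, h1.1, h1.2, h2.1, h2.2]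
  refine ⟨p, pos lam π (w 0) t, t, hp, ⟨fun k hk => ?_, fun k _ => ?_⟩, fun k _ => hper k⟩
  · have hkr : (k : ℝ) * r ≤ (N + 1) * (A + 4) := by
      have h1 : (k : ℝ) ≤ (N + 1) * p := by exact_mod_cast hk
      calc (k : ℝ) * r ≤ ((N + 1) * p) * r := by gcongr
        _ = (N + 1) * (p * r) := by ring
        _ ≤ (N + 1) * (A + 4) := by
          gcongr
          linarith
    have hδr : C * δ ≤ r ^ 2 / 4 := by
      calc C * δ ≤ C * (1 / (4 * C) * r ^ 2) := by
            rw [hδ]; gcongr; exact min_le_right _ _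
        _ = r ^ 2 / 4 := by field_simp
    have hkey : (k : ℝ) * (2 * n * δ) + n * δ + δ < r / 2 := by
      have h1 : ((k : ℝ) * (2 * n * δ) + n * δ + δ) * r ≤ C * δ := by
        have h2 : (k : ℝ) * r * (2 * n * δ) ≤ (N + 1) * (A + 4) * (2 * n * δ) := by gcongr
        have h3 : (n * δ + δ) * r ≤ n * δ + δ := by
          have : 0 ≤ n * δ + δ := by positivity
          nlinarith
        rw [hC]
        nlinarith
      have h4 : ((k : ℝ) * (2 * n * δ) + n * δ + δ) * r < r / 2 * r := by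
        have : 0 < r ^ 2 := by positivity
        nlinarith
      exact lt_of_mul_lt_mul_right h4 hr.le
    exact margin (lf_diff hmu (t k)) (hpos k) (hmu (t k)) (hin k) hδ0 hkey
  · rw [pos, pos, sum_range_succ]
    ring

end Run7.h952.LW
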