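import Pool.Agent.Run7.h952.LW.Iet

/-!
# Interval exchange transformations with generic lengths
-/

set_option autoImplicit false

namespace Run7.h952.LW

open Finset Filter

variable {n : ℕ}

/-- some itinerary contains a power with exponent `N` -/
def HasPow (lam : Fin n → ℝ) (π : Equiv.Perm (Fin n)) (N : ℕ) : Prop :=
  ∃ (p : ℕ) (w : ℕ → ℝ) (t : ℕ → Fin n), 1 ≤ p ∧ Seg lam π w t ((N + 1) * p) ∧
    ∀ k < N * p, t (k + p) = t k

/-- the positions of a point with a given itinerary -/
noncomputable def pos (lam : Fin n → ℝ) (π : Equiv.Perm (Fin n)) (w₀ : ℝ) (t : ℕ → Fin n) (k : ℕ) :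
    ℝ := w₀ + ∑ i ∈ range k, (rg lam π (t i) - lf lam (t i))

lemma pos_seg {lam : Fin n → ℝ} {π : Equiv.Perm (Fin n)} {w : ℕ → ℝ} {t : ℕ → Fin n} {m : ℕ}
    (H : Seg lam π w t m) : ∀ k ≤ m, w k = pos lam π (w 0) t k := by
  intro k
  induction k with
  | zero => intro _; simp [pos]
  | succ k ih =>
    intro hk
    rw [H.2 k (by omega), ih (by omega), pos, pos, sum_range_succ]
    ring

lemma cont_lf (i : Fin n) : Continuous fun lam : Fin n → ℝ => lf lam i := by
  unfold lf
  exact continuous_finsetSum _ fun j _ => continuous_apply j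

lemma cont_rg (π : Equiv.Perm (Fin n)) (i : Fin n) : Continuous fun lam : Fin n → ℝ => rg lam π i := by
  unfold rg
  exact continuous_finsetSum _ fun j _ => continuous_apply j

lemma open_pow (π : Equiv.Perm (Fin n)) (N : ℕ) : IsOpen {lam : Fin n → ℝ | HasPow lam π N} := by
  rw [isOpen_iff_mem_nhds]
  rintro lam ⟨p, w, t, hp, H, hper⟩
  have hc : ∀ k, Continuous fun lam : Fin n → ℝ => pos lam π (w 0) t k := by
    intro k
    unfold pos
    exact continuous_const.add (continuous_finsetSum _ fun i _ => (cont_rg π _).sub (cont_lf _))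
  have hopen : IsOpen (⋂ k ∈ Finset.range ((N + 1) * p + 1), {lam : Fin n → ℝ |
      lf lam (t k) < pos lam π (w 0) t k ∧ pos lam π (w 0) t k < lf lam (t k) + lam (t k)}) := by
    apply isOpen_biInter_finset
    intro k _
    exact (isOpen_lt (cont_lf _) (hc k)).inter
      (isOpen_lt (hc k) ((cont_lf _).add (continuous_apply _)))
  refine mem_of_superset (hopen.mem_nhds ?_) ?_
  · rw [Set.mem_iInter₂]
    intro k hk
    rw [Finset.mem_range] at hk
    have h1 := pos_seg H k (by omega)
    have h2 := H.1 k (by omega)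
    rw [h1] at h2
    exact h2
  · intro lam' hlam'
    rw [Set.mem_iInter₂] at hlam'
    refine ⟨p, pos lam' π (w 0) t, t, hp, ⟨fun k hk => hlam' k (Finset.mem_range.2 (by omega)), ?_⟩,
      hper⟩
    intro k _
    rw [pos, pos, sum_range_succ]
    ring

/-- rational lengths -/
lemma rat_pow (hn : 0 < n) (π : Equiv.Perm (Fin n)) {lam : Fin n → ℝ} (h : ∀ i, 0 < lam i) (Q : ℕ)
    (hQ : 0 < Q) (a : Fin n → ℤ) (ha : ∀ i, lam i * Q = a i) (N : ℕ) : HasPow lam π N := by
  have hQr : (0 : ℝ) < Q := by exact_mod_cast hQ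
  set A : ℝ := ∑ j, lam j with hA
  have hlfz : ∀ i, ∃ m : ℤ, lf lam i * Q = m := by
    intro i
    refine ⟨∑ j ∈ univ.filter (fun j => j < i), a j, ?_⟩
    unfold lf
    rw [sum_mul]
    push_cast
    exact sum_congr rfl fun j _ => ha j
  have hrgz : ∀ i, ∃ m : ℤ, rg lam π i * Q = m := by
    intro i
    refine ⟨∑ j ∈ univ.filter (fun j => π j < π i), a j, ?_⟩
    unfold rg
    rw [sum_mul]
    push_cast
    exact sum_congr rfl fun j _ => ha j
  -- the starting point
  have hlamQ : ∀ i, 1 ≤ lam i * Q := by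
    intro i
    have h1 : 0 < lam i * Q := mul_pos (h i) hQr
    rw [ha] at h1 ⊢
    have h2 : 0 < a i := by exact_mod_cast h1
    exact_mod_cast h2
  have hA1 : 1 ≤ A * Q := by
    have h1 : lam ⟨0, hn⟩ ≤ A := single_le_sum (f := lam) (fun i _ => (h i).le) (mem_univ _)
    calc (1 : ℝ) ≤ lam ⟨0, hn⟩ * Q := hlamQ _
      _ ≤ A * Q := by gcongr
  obtain ⟨y, s, H, hy0⟩ := exists_orb h π (show (0 : ℝ) ≤ 1 / (2 * Q) by positivity)
    (show 1 / (2 * (Q : ℝ)) < ∑ j, lam j by
      rw [div_lt_iff₀ (by positivity)]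
      nlinarith)
  have hform : ∀ k, ∃ m : ℤ, y k * (2 * Q) = 2 * m + 1 := by
    intro k
    induction k with
    | zero =>
      refine ⟨0, ?_⟩
      rw [hy0]
      field_simp
      norm_num
    | succ k ih =>
      obtain ⟨m, hm⟩ := ih
      obtain ⟨m₁, hm₁⟩ := hlfz (s k)
      obtain ⟨m₂, hm₂⟩ := hrgz (s k)
      refine ⟨m - m₁ + m₂, ?_⟩
      rw [H.step]
      push_cast
      linear_combination hm - 2 * hm₁ + 2 * hm₂
  choose m hm using hform
  have hbd : ∀ k, m k ∈ Set.Icc (-1 : ℤ) ⌈A * Q⌉ := by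
    intro k
    have h1 := (lf_nonneg h (s k)).trans (H.le k)
    have h2 : y k < A := (H.lt k).trans_le (lf_add_total h (s k))
    have h3 := hm k
    have h4 : (0 : ℝ) ≤ 2 * m k + 1 := by rw [← h3]; positivity
    have h5 : (2 * m k + 1 : ℝ) < A * (2 * Q) := by
      rw [← h3]
      exact mul_lt_mul_of_pos_right h2 (by positivity)
    have h6 := Int.le_ceil (A * Q)
    constructor
    · have : (-1 : ℝ) ≤ m k := by linarith
      exact_mod_cast this
    · have : (m k : ℝ) ≤ ⌈A * Q⌉ := by linarith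
      exact_mod_cast this
  obtain ⟨c, d, hcd, hmm⟩ : ∃ c d : ℕ, c < d ∧ m c = m d := by
    obtain ⟨c, d, hne, he⟩ := Finite.exists_ne_map_eq_of_infinite
      (fun k : ℕ => (⟨m k, hbd k⟩ : Set.Icc (-1 : ℤ) ⌈A * Q⌉))
    have he' : m c = m d := congrArg Subtype.val he
    rcases lt_or_gt_of_ne hne with h1 | h1
    · exact ⟨c, d, h1, he'⟩
    · exact ⟨d, c, h1, he'.symm⟩
  have hyy : ∀ k l, m k = m l → y k = y l := by
    intro k l hkl
    have h1 := hm k
    have h2 := hm l
    rw [hkl, ← h2] at h1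
    exact mul_right_cancel₀ (by positivity) h1
  have hp : ∀ k, y (c + k + (d - c)) = y (c + k) ∧ s (c + k + (d - c)) = s (c + k) := by
    have hs : ∀ k l, y k = y l → s k = s l := by
      intro k l hkl
      apply H.idx h
      · rw [hkl]; exact H.le l
      · rw [hkl]; exact H.lt l
    intro k
    have h1 : y (c + k + (d - c)) = y (c + k) := by
      induction k with
      | zero =>
        rw [add_zero, show c + (d - c) = d by omega]
        exact (hyy c d hmm).symm
      | succ k ih =>
        rw [show c + (k + 1) + (d - c) = c + k + (d - c) + 1 by ring, H.step, ih, hs _ _ ih,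
          ← H.step, add_assoc]
    exact ⟨h1, hs _ _ h1⟩
  refine ⟨d - c, fun k => y (c + k), fun k => s (c + k), by omega, ⟨?_, ?_⟩, ?_⟩
  · intro k _
    refine ⟨lt_of_le_of_ne (H.le _) fun heq => ?_, H.lt _⟩
    obtain ⟨m₁, hm₁⟩ := hlfz (s (c + k))
    have h1 := hm (c + k)
    have heq' : lf lam (s (c + k)) = y (c + k) := heq
    rw [← heq'] at h1
    have h2 : (2 * m₁ : ℝ) = 2 * m (c + k) + 1 := by rw [← h1, ← hm₁]; ring
    have h3 : 2 * m₁ = 2 * m (c + k) + 1 := by exact_mod_cast h2
    omega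
  · intro k _
    show y (c + (k + 1)) = _
    rw [← add_assoc, H.step]
  · intro k _
    show s (c + (k + (d - c))) = _
    rw [← add_assoc]
    exact (hp k).2

/-- **generic lengths** -/
theorem generic (hn : 0 < n) (π : Equiv.Perm (Fin n)) :
    ∀ᶠ lam in residual (Fin n → ℝ), (∀ i, 0 < lam i) → ∀ N, HasPow lam π N := by
  have key : ∀ N, ∀ᶠ lam in residual (Fin n → ℝ), (∀ i, 0 < lam i) → HasPow lam π N := by
    intro N
    have ho : IsOpen ((⋃ i, {lam : Fin n → ℝ | lam i < 0}) ∪ {lam : Fin n → ℝ | HasPow lam π N}) :=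
      (isOpen_iUnion fun i => isOpen_lt (continuous_apply i) continuous_const).union (open_pow π N)
    have hd : Dense ((⋃ i, {lam : Fin n → ℝ | lam i < 0}) ∪
        {lam : Fin n → ℝ | HasPow lam π N}) := by
      rw [Metric.dense_iff]
      intro lam ε hε
      by_cases hneg : ∃ i, lam i < 0
      · obtain ⟨i, hi⟩ := hneg
        exact ⟨lam, Metric.mem_ball_self hε, Or.inl (Set.mem_iUnion.2 ⟨i, hi⟩)⟩
      · push Not at hneg
        choose r hr1 hr2 using fun i => exists_rat_btwn (show lam i < lam i + ε by linarith)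
        have hr0 : ∀ i, 0 < r i := by
          intro i
          have h1 : (0 : ℝ) < r i := lt_of_le_of_lt (hneg i) (hr1 i)
          exact_mod_cast h1
        refine ⟨fun i => (r i : ℝ), ?_, Or.inr ?_⟩
        · rw [Metric.mem_ball, dist_pi_lt_iff hε]
          intro i
          rw [Real.dist_eq, abs_lt]
          constructor <;> linarith [hr1 i, hr2 i]
        · refine rat_pow hn π (fun i => by exact_mod_cast hr0 i) (∏ i, (r i).den)
            (Finset.prod_pos fun i _ => (r i).den_pos) (fun i => (r i).num * ∏ j ∈ univ.erase i,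
              ((r j).den : ℤ)) ?_ N
          intro i
          rw [← mul_prod_erase univ _ (mem_univ i)]
          push_cast
          rw [← mul_assoc]
          congr 1
          exact_mod_cast Rat.mul_den_eq_num (r i)
    refine mem_of_superset (residual_of_dense_open ho hd) ?_
    rintro lam (h1 | h1) hpos
    · obtain ⟨i, hi⟩ := Set.mem_iUnion.1 h1
      exact absurd (hpos i) (not_lt.2 (le_of_lt hi))
    · exact h1
  have h2 : ∀ᶠ lam in residual (Fin n → ℝ), ∀ N, (∀ i, 0 < lam i) → HasPow lam π N :=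
    eventually_countable_forall.2 key
  exact h2.mono fun lam h3 h4 N => h3 N h4

end Run7.h952.LW
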