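import Pool.Agent.Run7.h952.LW.Pow
import Pool.Agent.Run7.h952.LW.Gen

/-!
# Littlewood's conjecture for codes of interval exchange transformations
-/

set_option autoImplicit false

namespace Run7.h952.LW

open Finset Filter Pool.Agent.W13.LM

variable {n : ℕ}

/-- the orbit comes back to every interval -/
def Dns (lam : Fin n → ℝ) (y : ℕ → ℝ) : Prop :=
  ∀ u v : ℝ, 0 ≤ u → u < v → v ≤ ∑ j, lam j → ∀ K : ℕ, ∃ k ≥ K, u < y k ∧ y k < v

/-- a dense orbit follows a given segment -/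
lemma follow {lam : Fin n → ℝ} {π : Equiv.Perm (Fin n)} (h : ∀ i, 0 < lam i) {w : ℕ → ℝ}
    {t : ℕ → Fin n} {m : ℕ} (H : Seg lam π w t m) {y : ℕ → ℝ} {s : ℕ → Fin n} (Hy : Orb lam π y s)
    (hd : Dns lam y) (K : ℕ) : ∃ k₀ ≥ K, ∀ k ≤ m, s (k₀ + k) = t k := by
  obtain ⟨ε, hε, hs⟩ := shadow h H
  have h0 := H.1 0 (by omega)
  have h1 := lf_nonneg h (t 0)
  have h2 := lf_add_total h (t 0)
  obtain ⟨k₀, hk₀, h3, h4⟩ := hd (w 0) (min (w 0 + ε) (∑ j, lam j)) (by linarith)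
    (lt_min (by linarith) (by linarith)) (min_le_right _ _) K
  refine ⟨k₀, hk₀, hs y s k₀ Hy ?_⟩
  have h5 := h4.trans_le (min_le_left _ _)
  rw [abs_lt]
  constructor <;> linarith

lemma bdd (F : Fin n → ℤ × ℤ) : ∃ B : ℝ, ∀ i, |((F i).2 : ℝ)| ≤ B :=
  ⟨∑ i, |((F i).2 : ℝ)|, fun i => single_le_sum (f := fun i => |((F i).2 : ℝ)|)
    (fun _ _ => abs_nonneg _) (mem_univ i)⟩

variable {α : ℝ} {a₀ : ℤ} {b q : ℕ → ℤ} {D : ℕ → ℝ}

/-- symmetric permutations -/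
theorem code_sym {lam : Fin n → ℝ} (h : ∀ i, 0 < lam i) (hno : NoConn lam Fin.revPerm)
    {y : ℕ → ℝ} {s : ℕ → Fin n} (Hy : Orb lam Fin.revPerm y s) (hd : Dns lam y)
    (F : Fin n → ℤ × ℤ) (x : ℕ → ℤ) (hF : ∀ k, (b k, x k) = F (s k))
    (E : Exp α a₀ b q D) : LC α (∑' k, (x k : ℝ) * D k) := by
  obtain ⟨B, hB⟩ := bdd F
  refine mirror_digits E x B (fun k => ?_) fun K => ?_
  · have h1 : x k = (F (s k)).2 := by rw [← hF]
    rw [h1]
    exact hB _
  · obtain ⟨w, t, H, hsym⟩ := mirror_seg h hno (s 0) K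
    obtain ⟨k₀, hk₀, hk⟩ := follow h H Hy hd 1
    refine ⟨2 * (k₀ - 1 + K), 1, by omega, Or.inl rfl, fun i j hij hi hj => ?_⟩
    have e1 : s (i + 1) = t (i + 1 - k₀) := by
      rw [← hk _ (by omega)]
      congr 1
      omega
    have e2 : s (j + 1) = t (j + 1 - k₀) := by
      rw [← hk _ (by omega)]
      congr 1
      omega
    have e3 : s (i + 1) = s (j + 1) := by
      rw [e1, e2, hsym (i + 1 - k₀) (by omega)]
      congr 1
      omega
    have h1 := hF (i + 1)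
    have h2 := hF (j + 1)
    rw [e3, ← h2, Prod.mk.injEq] at h1
    exact ⟨h1.1, by rw [one_mul]; exact h1.2⟩

/-- powers -/
theorem code_pow {lam : Fin n → ℝ} {π : Equiv.Perm (Fin n)} (h : ∀ i, 0 < lam i)
    (hpow : ∀ N, HasPow lam π N)
    {y : ℕ → ℝ} {s : ℕ → Fin n} (Hy : Orb lam π y s) (hd : Dns lam y)
    (F : Fin n → ℤ × ℤ) (x : ℕ → ℤ) (hF : ∀ k, (b k, x k) = F (s k))
    (E : Exp α a₀ b q D) : LC α (∑' k, (x k : ℝ) * D k) := by
  obtain ⟨B, hB⟩ := bdd F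
  refine powers_digits E x B (fun k => ?_) fun N => ?_
  · have h1 : x k = (F (s k)).2 := by rw [← hF]
    rw [h1]
    exact hB _
  · obtain ⟨p, w, t, hp, H, hper⟩ := hpow N
    obtain ⟨k₀, hk₀, hk⟩ := follow h H Hy hd 1
    refine ⟨k₀ - 1, p, hp, fun k hk1 hk2 => ?_⟩
    have hNp : (N + 1) * p = N * p + p := by ring
    have e1 : s (k + 1) = t (k + 1 - k₀) := by
      rw [← hk _ (by omega)]
      congr 1
      omega
    have e2 : s (k + p + 1) = t (k + 1 - k₀ + p) := by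
      rw [← hk _ (by omega)]
      congr 1
      omega
    have e3 : s (k + p + 1) = s (k + 1) := by
      rw [e1, e2, hper _ (by omega)]
    have h1 := hF (k + p + 1)
    have h2 := hF (k + 1)
    rw [e3, ← h2, Prod.mk.injEq] at h1
    exact h1

end Run7.h952.LW
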