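import Mathlib

/-!
# Interval exchange transformations
-/

set_option autoImplicit false

namespace Run7.h952.LW

open Finset

variable {n : ℕ}

/-- the left endpoint of the interval with the index `i` -/
noncomputable def lf (lam : Fin n → ℝ) (i : Fin n) : ℝ := ∑ j ∈ univ.filter (fun j => j < i), lam j

/-- the left endpoint of the image of this interval -/
noncomputable def rg (lam : Fin n → ℝ) (π : Equiv.Perm (Fin n)) (i : Fin n) : ℝ :=
  ∑ j ∈ univ.filter (fun j => π j < π i), lam j

/-- `y` is an orbit of the interval exchange and `s` is its itinerary -/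
structure Orb (lam : Fin n → ℝ) (π : Equiv.Perm (Fin n)) (y : ℕ → ℝ) (s : ℕ → Fin n) : Prop where
  le : ∀ k, lf lam (s k) ≤ y k
  lt : ∀ k, y k < lf lam (s k) + lam (s k)
  step : ∀ k, y (k + 1) = y k - lf lam (s k) + rg lam π (s k)

variable {lam : Fin n → ℝ} {π : Equiv.Perm (Fin n)}

lemma lf_nonneg (h : ∀ i, 0 < lam i) (i : Fin n) : 0 ≤ lf lam i :=
  sum_nonneg fun j _ => (h j).le

lemma rg_nonneg (h : ∀ i, 0 < lam i) (i : Fin n) : 0 ≤ rg lam π i :=
  sum_nonneg fun j _ => (h j).le

lemma lf_add (h : ∀ i, 0 < lam i) {i j : Fin n} (hij : i < j) : lf lam i + lam i ≤ lf lam j := by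
  have h1 : lf lam i + lam i = ∑ k ∈ insert i (univ.filter (fun k => k < i)), lam k := by
    rw [sum_insert (by simp), add_comm]
    rfl
  rw [h1]
  apply sum_le_sum_of_subset_of_nonneg
  · intro k hk
    rw [mem_insert, mem_filter] at hk
    rw [mem_filter]
    refine ⟨mem_univ _, ?_⟩
    rcases hk with rfl | ⟨-, hk⟩
    · exact hij
    · exact hk.trans hij
  · intro k _ _
    exact (h k).le

lemma lf_add_total (h : ∀ i, 0 < lam i) (i : Fin n) : lf lam i + lam i ≤ ∑ j, lam j := by
  have h1 : lf lam i + lam i = ∑ k ∈ insert i (univ.filter (fun k => k < i)), lam k := by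
    rw [sum_insert (by simp), add_comm]
    rfl
  rw [h1]
  exact sum_le_sum_of_subset_of_nonneg (subset_univ _) fun k _ _ => (h k).le

lemma rg_add_total (h : ∀ i, 0 < lam i) (i : Fin n) : rg lam π i + lam i ≤ ∑ j, lam j := by
  have h1 : rg lam π i + lam i = ∑ k ∈ insert i (univ.filter (fun k => π k < π i)), lam k := by
    rw [sum_insert (by simp), add_comm]
    rfl
  rw [h1]
  exact sum_le_sum_of_subset_of_nonneg (subset_univ _) fun k _ _ => (h k).le

/-- the intervals are disjoint -/
lemma idx_unique (h : ∀ i, 0 < lam i) {i j : Fin n} {v : ℝ} (h1 : lf lam i ≤ v)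
    (h2 : v < lf lam i + lam i) (h3 : lf lam j ≤ v) (h4 : v < lf lam j + lam j) : i = j := by
  rcases lt_trichotomy i j with hij | hij | hij
  · have := lf_add h hij
    linarith
  · exact hij
  · have := lf_add h hij
    linarith

/-- the intervals cover -/
lemma exists_idx {v : ℝ} (h0 : 0 ≤ v) (h1 : v < ∑ j, lam j) :
    ∃ i : Fin n, lf lam i ≤ v ∧ v < lf lam i + lam i := by
  classical
  have hex : ∃ k, v < ∑ j ∈ univ.filter (fun j : Fin n => j.val < k), lam j := by
    refine ⟨n, ?_⟩
    have : univ.filter (fun j : Fin n => j.val < n) = univ := by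
      ext j
      simp
    rwa [this]
  obtain ⟨k, hk⟩ : ∃ k, k = Nat.find hex := ⟨_, rfl⟩
  have hk1 := Nat.find_spec hex
  rw [← hk] at hk1
  have hk0 : k ≠ 0 := by
    rintro h
    rw [h] at hk1
    simp at hk1
    linarith
  have hk2 := Nat.find_min hex (m := k - 1) (by omega)
  push Not at hk2
  have hkn : k - 1 < n := by
    by_contra hcon
    have e1 : univ.filter (fun j : Fin n => j.val < k - 1) = univ := by
      ext j
      simp
      omega
    rw [e1] at hk2
    linarith
  refine ⟨⟨k - 1, hkn⟩, ?_, ?_⟩
  · exact hk2
  · refine hk1.trans_le (le_of_eq ?_)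
    have e2 : univ.filter (fun j : Fin n => j.val < k) =
        insert (⟨k - 1, hkn⟩ : Fin n) (univ.filter (fun j => j < (⟨k - 1, hkn⟩ : Fin n))) := by
      ext j
      simp only [mem_filter, mem_univ, true_and, mem_insert, Fin.lt_def, Fin.ext_iff]
      omega
    rw [e2, sum_insert (by simp), add_comm]
    rfl

/-- orbits exist -/
lemma exists_orb (h : ∀ i, 0 < lam i) (π : Equiv.Perm (Fin n)) {v : ℝ} (h0 : 0 ≤ v)
    (h1 : v < ∑ j, lam j) : ∃ y s, Orb lam π y s ∧ y 0 = v := by
  classical
  let X := {v : ℝ // 0 ≤ v ∧ v < ∑ j, lam j}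
  choose idx hidx using fun v : X => exists_idx v.2.1 v.2.2
  let T : X → X := fun v => ⟨v.1 - lf lam (idx v) + rg lam π (idx v), by
    have := hidx v
    have h2 := rg_nonneg (π := π) h (idx v)
    have h3 := rg_add_total (π := π) h (idx v)
    constructor <;> linarith⟩
  refine ⟨fun k => (T^[k] ⟨v, h0, h1⟩).1, fun k => idx (T^[k] ⟨v, h0, h1⟩), ⟨?_, ?_, ?_⟩, rfl⟩
  · intro k
    exact (hidx _).1
  · intro k
    exact (hidx _).2
  · intro k
    simp only [Function.iterate_succ_apply']
    rfl

lemma Orb.idx (h : ∀ i, 0 < lam i) {y : ℕ → ℝ} {s : ℕ → Fin n} (H : Orb lam π y s) {k : ℕ}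
    {i : Fin n} (h1 : lf lam i ≤ y k) (h2 : y k < lf lam i + lam i) : s k = i :=
  idx_unique h (H.le k) (H.lt k) h1 h2

/-- a segment of an orbit in the open intervals -/
def Seg (lam : Fin n → ℝ) (π : Equiv.Perm (Fin n)) (w : ℕ → ℝ) (t : ℕ → Fin n) (m : ℕ) : Prop :=
  (∀ k ≤ m, lf lam (t k) < w k ∧ w k < lf lam (t k) + lam (t k)) ∧
    ∀ k < m, w (k + 1) = w k - lf lam (t k) + rg lam π (t k)

/-- orbits which start near a segment have the same itinerary -/
lemma shadow (h : ∀ i, 0 < lam i) {w : ℕ → ℝ} {t : ℕ → Fin n} {m : ℕ} (H : Seg lam π w t m) :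
    ∃ ε : ℝ, 0 < ε ∧ ∀ (y : ℕ → ℝ) (s : ℕ → Fin n) (k₀ : ℕ), Orb lam π y s → |y k₀ - w 0| < ε →
      ∀ k ≤ m, s (k₀ + k) = t k := by
  classical
  obtain ⟨ε, hε, hle⟩ : ∃ ε : ℝ, 0 < ε ∧ ∀ k ≤ m, ε ≤ w k - lf lam (t k) ∧
      ε ≤ lf lam (t k) + lam (t k) - w k := by
    have h1 : ∀ k : ℕ, ∃ ε : ℝ, 0 < ε ∧ (k ≤ m → ε ≤ w k - lf lam (t k) ∧
        ε ≤ lf lam (t k) + lam (t k) - w k) := by
      intro k
      by_cases hk : k ≤ m
      · have h2 := H.1 k hk
        refine ⟨min (w k - lf lam (t k)) (lf lam (t k) + lam (t k) - w k), ?_, fun _ => ?_⟩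
        · apply lt_min <;> linarith
        · exact ⟨min_le_left _ _, min_le_right _ _⟩
      · exact ⟨1, one_pos, fun h => absurd h hk⟩
    choose e he0 he using h1
    have hne : (range (m + 1)).Nonempty := ⟨0, by simp⟩
    refine ⟨(range (m + 1)).inf' hne e, (Finset.lt_inf'_iff hne).2 fun k _ => he0 k, ?_⟩
    · intro k hk
      have h3 : (range (m + 1)).inf' hne e ≤ e k := inf'_le _ (by simp; omega)
      have h4 := he k hk
      exact ⟨h3.trans h4.1, h3.trans h4.2⟩
  refine ⟨ε, hε, fun y s k₀ hy hclose => ?_⟩
  have key : ∀ k ≤ m, y (k₀ + k) - w k = y k₀ - w 0 ∧ s (k₀ + k) = t k := by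
    intro k
    induction k with
    | zero =>
      intro _
      refine ⟨rfl, ?_⟩
      have h2 := hle 0 (by omega)
      rw [abs_lt] at hclose
      apply hy.idx h
      · show lf lam (t 0) ≤ y (k₀ + 0)
        rw [add_zero]; linarith
      · show y (k₀ + 0) < _
        rw [add_zero]; linarith
    | succ k ih =>
      intro hk
      obtain ⟨h3, h4⟩ := ih (by omega)
      have h5 : y (k₀ + (k + 1)) - w (k + 1) = y k₀ - w 0 := by
        have e1 := hy.step (k₀ + k)
        have e2 := H.2 k (by omega)
        rw [← add_assoc, e1, e2, h4, ← h3]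
        ring
      refine ⟨h5, ?_⟩
      have h2 := hle (k + 1) hk
      rw [abs_lt] at hclose
      apply hy.idx h <;> linarith
  exact fun k hk => (key k hk).2

/-! ### the symmetric permutation -/

lemma rg_rev (lam : Fin n → ℝ) (i : Fin n) :
    rg lam Fin.revPerm i = ∑ j, lam j - lf lam i - lam i := by
  have h1 : (univ : Finset (Fin n)) = (univ.filter (fun j => j < i)) ∪
      insert i (univ.filter (fun j => i < j)) := by
    ext j
    simp only [mem_univ, mem_union, mem_filter, true_and, mem_insert, true_iff]
    rcases lt_trichotomy j i with h | h | h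
    · exact Or.inl h
    · exact Or.inr (Or.inl h)
    · exact Or.inr (Or.inr h)
  have h2 : ∑ j, lam j = lf lam i + (lam i + ∑ j ∈ univ.filter (fun j => i < j), lam j) := by
    conv_lhs => rw [h1]
    rw [sum_union, sum_insert (by simp)]
    · rfl
    · rw [disjoint_left]
      intro j hj hj'
      rw [mem_filter] at hj
      rw [mem_insert, mem_filter] at hj'
      rcases hj' with rfl | hj'
      · exact lt_irrefl _ hj.2
      · exact lt_asymm hj.2 hj'.2
  have h3 : rg lam Fin.revPerm i = ∑ j ∈ univ.filter (fun j => i < j), lam j := by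
    unfold rg
    congr 1
    ext j
    simp [Fin.revPerm_apply, Fin.rev_lt_rev]
  rw [h3, h2]
  ring

/-- no orbit joins two interior endpoints -/
def NoConn (lam : Fin n → ℝ) (π : Equiv.Perm (Fin n)) : Prop :=
  ∀ (y : ℕ → ℝ) (s : ℕ → Fin n), Orb lam π y s → ∀ i j : Fin n, 0 < i.val → 0 < j.val →
    y 0 = lf lam i → ∀ k, y (k + 1) ≠ lf lam j

/-- the orbit of a midpoint avoids the endpoints -/
lemma mid_interior (h : ∀ i, 0 < lam i) (hno : NoConn lam Fin.revPerm) (i₀ : Fin n)
    {z : ℕ → ℝ} {t : ℕ → Fin n} (H : Orb lam Fin.revPerm z t) (hz : z 0 = lf lam i₀ + lam i₀ / 2) :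
    ∀ k, lf lam (t k) < z k := by
  have ht0 : t 0 = i₀ := by
    apply H.idx h
    · rw [hz]; linarith [h i₀]
    · rw [hz]; linarith [h i₀]
  intro k
  induction k using Nat.strong_induction_on with
  | _ k ih =>
    rcases Nat.eq_zero_or_pos k with hk0 | hk0
    · rw [hk0, ht0, hz]
      linarith [h i₀]
    · refine lt_of_le_of_ne (H.le k) fun heq => ?_
      obtain ⟨l, rfl⟩ : ∃ l, k = l + 1 := ⟨k - 1, by omega⟩
      obtain ⟨j, hj⟩ : ∃ j, j = t (l + 1) := ⟨_, rfl⟩
      rw [← hj] at heq
      set A : ℝ := ∑ j, lam j with hA
      have hstep : ∀ i, z (i + 1) = z i - lf lam (t i) + (A - lf lam (t i) - lam (t i)) := by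
        intro i
        rw [H.step, rg_rev]
      -- the first index is impossible
      have hj0 : 0 < j.val := by
        rcases Nat.eq_zero_or_pos j.val with h0 | h0
        · exfalso
          have h1 : lf lam j = 0 := by
            unfold lf
            apply sum_eq_zero
            intro k hk
            rw [mem_filter, Fin.lt_def] at hk
            omega
          have h2 := hstep l
          have h3 := ih l (by omega)
          have h4 := lf_add_total h (t l)
          rw [← heq, h1] at h2
          linarith
        · exact h0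
      -- the reflected orbit
      set w : ℕ → ℝ := fun i => 2 * lf lam (t i) + lam (t i) - z i with hw
      have hw1 : ∀ i ≤ l, lf lam (t i) < w i ∧ w i < lf lam (t i) + lam (t i) := by
        intro i hi
        have h1 := ih i (by omega)
        have h2 := H.lt i
        simp only [hw]
        constructor <;> linarith
      have hw2 : ∀ i, w i = w (i + 1) - lf lam (t (i + 1)) + (A - lf lam (t (i + 1)) -
          lam (t (i + 1))) := by
        intro i
        simp only [hw]
        rw [hstep i]
        ring
      have hw0 : w 0 = z 0 := by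
        simp only [hw]
        rw [ht0, hz]
        ring
      have hwl : w l = A - lf lam j := by
        have h2 := hstep l
        rw [← heq] at h2
        simp only [hw]
        linarith
      -- from a point whose image is `w l`
      have run : ∀ (y : ℕ → ℝ) (s : ℕ → Fin n) (c : ℕ), Orb lam Fin.revPerm y s → y c = w l →
          y (c + (2 * l + 1)) = lf lam j := by
        intro y s c Hy hyc
        have r1 : ∀ i ≤ l, y (c + i) = w (l - i) := by
          intro i
          induction i with
          | zero => intro _; exact hyc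
          | succ i ihi =>
            intro hi
            have h1 := ihi (by omega)
            have h2 : s (c + i) = t (l - i) := by
              have h3 := hw1 (l - i) (by omega)
              apply Hy.idx h
              · rw [h1]; exact h3.1.le
              · rw [h1]; exact h3.2
            have h3 := hw2 (l - (i + 1))
            rw [show l - (i + 1) + 1 = l - i by omega] at h3
            rw [← add_assoc, Hy.step, rg_rev, h2, h1, h3]
        have r2 : ∀ i ≤ l + 1, y (c + l + i) = z i := by
          intro i
          induction i with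
          | zero =>
            intro _
            have h1 := r1 l le_rfl
            rw [Nat.sub_self, hw0] at h1
            exact h1
          | succ i ihi =>
            intro hi
            have h1 := ihi (by omega)
            have h2 : s (c + l + i) = t i := by
              apply Hy.idx h
              · rw [h1]; exact H.le i
              · rw [h1]; exact H.lt i
            rw [← add_assoc, Hy.step, h2, h1, H.step]
        have h1 := r2 (l + 1) le_rfl
        rw [show c + (2 * l + 1) = c + l + (l + 1) by ring, h1]
        exact heq.symm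
      -- the connection
      have hjA : lf lam j < A := by
        have := lf_add_total h j
        linarith [h j]
      obtain ⟨j', hj'⟩ : ∃ j' : Fin n, j'.val + 1 = j.val := ⟨⟨j.val - 1, by omega⟩, by simp; omega⟩
      have hlj : lf lam j = lf lam j' + lam j' := by
        unfold lf
        have e2 : univ.filter (fun k : Fin n => k < j) =
            insert j' (univ.filter (fun k => k < j')) := by
          ext k
          simp only [mem_filter, mem_univ, true_and, mem_insert, Fin.lt_def, Fin.ext_iff]
          omega
        rw [e2, sum_insert (by simp), add_comm]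
      have hlj0 : 0 ≤ lf lam j' := lf_nonneg h j'
      obtain ⟨y, s, Hy, hy0⟩ := exists_orb h Fin.revPerm hlj0 (by linarith [h j'])
      have hs0 : s 0 = j' := by
        apply Hy.idx h
        · rw [hy0]
        · rw [hy0]; linarith [h j']
      have hy1 : y 1 = w l := by
        have h1 := Hy.step 0
        rw [zero_add, rg_rev, hs0, hy0] at h1
        rw [h1, hwl, hlj]
        ring
      rcases Nat.eq_zero_or_pos j'.val with h0 | h0
      · -- go one step further back, to the last interior endpoint
        have hl0 : lf lam j' = 0 := by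
          unfold lf
          apply sum_eq_zero
          intro k hk
          rw [mem_filter, Fin.lt_def] at hk
          omega
        have hn : n - 1 < n := by have := j.2; omega
        obtain ⟨e, he⟩ : ∃ e : Fin n, e = ⟨n - 1, hn⟩ := ⟨_, rfl⟩
        have hle : lf lam e + lam e = A := by
          unfold lf
          have e2 : (univ : Finset (Fin n)) = insert e (univ.filter (fun k => k < e)) := by
            ext k
            simp only [mem_filter, mem_univ, true_and, mem_insert, Fin.lt_def, Fin.ext_iff, he,
              true_iff]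
            have := k.2
            omega
          rw [hA]
          conv_rhs => rw [e2]
          rw [sum_insert (by simp), add_comm]
        obtain ⟨y', s', Hy', hy0'⟩ := exists_orb h Fin.revPerm (lf_nonneg h e) (by linarith [h e])
        have hs0' : s' 0 = e := by
          apply Hy'.idx h
          · rw [hy0']
          · rw [hy0']; linarith [h e]
        have hy1' : y' 1 = 0 := by
          have h1 := Hy'.step 0
          rw [zero_add, rg_rev, hs0', hy0'] at h1
          rw [h1]
          linarith
        have hs1' : s' 1 = j' := by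
          apply Hy'.idx h
          · rw [hy1', hl0]
          · rw [hy1', hl0]; linarith [h j']
        have hy2' : y' 2 = w l := by
          have h1 := Hy'.step 1
          rw [rg_rev, hs1', hy1', hl0] at h1
          rw [show (2 : ℕ) = 1 + 1 by rfl, h1, hwl, hlj, hl0]
          ring
        have h1 := run y' s' 2 Hy' hy2'
        have he0 : 0 < e.val := by
          rw [he]
          show 0 < n - 1
          have := j.2
          omega
        refine hno y' s' Hy' e j he0 hj0 hy0' (2 * l + 2) ?_
        rw [show 2 * l + 2 + 1 = 2 + (2 * l + 1) by ring]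
        exact h1
      · have h1 := run y s 1 Hy hy1
        refine hno y s Hy j' j h0 hj0 hy0 (2 * l + 1) ?_
        rw [show 2 * l + 1 + 1 = 1 + (2 * l + 1) by ring]
        exact h1

/-- mirror symmetric segments -/
lemma mirror_seg (h : ∀ i, 0 < lam i) (hno : NoConn lam Fin.revPerm) (i₀ : Fin n) (K : ℕ) :
    ∃ (w : ℕ → ℝ) (t : ℕ → Fin n), Seg lam Fin.revPerm w t (2 * K) ∧
      ∀ k ≤ 2 * K, t k = t (2 * K - k) := by
  have h1 := lf_add_total h i₀
  have h2 := h i₀
  obtain ⟨z, t, H, hz⟩ := exists_orb h Fin.revPerm
    (show 0 ≤ lf lam i₀ + lam i₀ / 2 by linarith [lf_nonneg h i₀]) (by linarith)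
  have hint := mid_interior h hno i₀ H hz
  have ht0 : t 0 = i₀ := by
    apply H.idx h
    · rw [hz]; linarith [h i₀]
    · rw [hz]; linarith [h i₀]
  have hstep : ∀ i, z (i + 1) = z i - lf lam (t i) + (∑ j, lam j - lf lam (t i) - lam (t i)) := by
    intro i
    rw [H.step, rg_rev]
  refine ⟨fun k => if k < K then 2 * lf lam (t (K - k)) + lam (t (K - k)) - z (K - k) else z (k - K),
    fun k => if k < K then t (K - k) else t (k - K), ⟨?_, ?_⟩, ?_⟩
  · intro k hk
    by_cases hkK : k < K
    · simp only [if_pos hkK]
      have h3 := hint (K - k)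
      have h4 := H.lt (K - k)
      constructor <;> linarith
    · simp only [if_neg hkK]
      exact ⟨hint _, H.lt _⟩
  · intro k hk
    by_cases hkK : k < K
    · simp only [if_pos hkK]
      rw [rg_rev]
      by_cases hkK' : k + 1 < K
      · rw [if_pos hkK']
        have h3 := hstep (K - (k + 1))
        rw [show K - (k + 1) + 1 = K - k by omega] at h3
        rw [h3]
        ring
      · rw [if_neg hkK']
        have h4 : K = k + 1 := by omega
        have h3 := hstep 0
        rw [h4, Nat.sub_self, show k + 1 - k = 0 + 1 by omega, h3, ht0, hz]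
        ring
    · have hkK' : ¬ k + 1 < K := by omega
      simp only [if_neg hkK, if_neg hkK']
      rw [show k + 1 - K = k - K + 1 by omega, H.step]
  · intro k hk
    by_cases hkK : k < K
    · have : ¬ 2 * K - k < K := by omega
      simp only [if_pos hkK, if_neg this]
      congr 1
      omega
    · by_cases hkK' : 2 * K - k < K
      · simp only [if_neg hkK, if_pos hkK']
        congr 1
        omega
      · simp only [if_neg hkK, if_neg hkK']
        congr 1
        omega

end Run7.h952.LW
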