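import Pool.Agent.W13.LM.Digits

/-!
# Littlewood's conjecture: codes with high powers
-/

set_option autoImplicit false

namespace Run7.h952.LW

open Pool.Agent.W13.LM

variable {α : ℝ} {a₀ : ℤ} {b q : ℕ → ℤ} {D : ℕ → ℝ}

lemma ratio {c : ℝ} (hc : 0 < c) (E : Exp α a₀ b q D)
    (hbad : ∀ q : ℕ, 0 < q → c ≤ (q : ℝ) * |(q : ℝ) * α - (round ((q : ℝ) * α) : ℝ)|) (k : ℕ) :
    c ^ 2 * D k ≤ (c + 1) * D (k + 1) := by
  have u0 := qd_upper hc E hbad k
  have l1 := qd_lower E hbad k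
  have w1 := E.wron k
  have n0 := E.qnonneg k
  have n1 := E.qnonneg (k + 1)
  have d0 := E.pos k
  have d1 := E.pos (k + 1)
  have m0 := E.Dl k
  have h1 : c * ((q (k + 1) : ℝ) * D k) ≤ c + 1 := by
    have : (q k : ℝ) * D (k + 1) ≤ q k * D k := by gcongr
    nlinarith
  calc c ^ 2 * D k = c * (c * D k) := by ring
    _ ≤ c * (((q (k + 1) : ℝ) * D (k + 1)) * D k) := by gcongr
    _ = (c * ((q (k + 1) : ℝ) * D k)) * D (k + 1) := by ring
    _ ≤ (c + 1) * D (k + 1) := by gcongr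

lemma ratio_pow {c : ℝ} (hc : 0 < c) (E : Exp α a₀ b q D)
    (hbad : ∀ q : ℕ, 0 < q → c ≤ (q : ℝ) * |(q : ℝ) * α - (round ((q : ℝ) * α) : ℝ)|) (k p : ℕ) :
    D k ≤ ((c + 1) / c ^ 2) ^ p * D (k + p) := by
  induction p with
  | zero => simp
  | succ p ih =>
    have h1 := ratio hc E hbad (k + p)
    have h2 : D (k + p) ≤ ((c + 1) / c ^ 2) * D (k + p + 1) := by
      rw [div_mul_eq_mul_div, le_div_iff₀ (by positivity)]
      linarith
    calc D k ≤ ((c + 1) / c ^ 2) ^ p * D (k + p) := ih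
      _ ≤ ((c + 1) / c ^ 2) ^ p * (((c + 1) / c ^ 2) * D (k + p + 1)) := by gcongr
      _ = _ := by rw [pow_succ, ← add_assoc]; ring

/-- **High powers.** If the code `(b (k + 1), z k)` contains arbitrarily high powers of words, the
conjecture holds. -/
theorem powers (E : Exp α a₀ b q D) (β : ℝ) (B : ℝ) (n : ℕ → ℤ)
    (hn : ∀ k, |(q k : ℝ) * β - n k| ≤ B)
    (h : ∀ N : ℕ, ∃ u p : ℕ, 1 ≤ p ∧ ∀ k, u ≤ k → k < u + N * p → b (k + p + 1) = b (k + 1) ∧
      n (k + p + 2) + n (k + p) - b (k + p + 1) * n (k + p + 1)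
        = n (k + 2) + n k - b (k + 1) * n (k + 1)) : LC α β := by
  by_contra hcon
  obtain ⟨c, hc, hc1, hbad, hprod⟩ := bad_of_not_lc hcon
  have hB0 : 0 ≤ B := (abs_nonneg _).trans (hn 0)
  have h1c : 0 ≤ 1 - c := by linarith
  obtain ⟨L, hL⟩ : ∃ L : ℝ, L = (c + 1) / c ^ 2 := ⟨_, rfl⟩
  have hL0 : 0 < L := by rw [hL]; positivity
  -- the exponent
  obtain ⟨M, hM1, hM2⟩ : ∃ M : ℕ, L * (1 - c) ^ M ≤ 1 ∧ 8 * B * (L * (1 - c) ^ M) < c ^ 3 := by
    have ht : Filter.Tendsto (fun M : ℕ => L * (1 - c) ^ M) Filter.atTop (nhds (L * 0)) :=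
      (tendsto_pow_atTop_nhds_zero_of_lt_one h1c (by linarith : 1 - c < 1)).const_mul _
    have ht2 : Filter.Tendsto (fun M : ℕ => 8 * B * (L * (1 - c) ^ M)) Filter.atTop
        (nhds (8 * B * (L * 0))) := ht.const_mul _
    rw [mul_zero] at ht
    rw [mul_zero, mul_zero] at ht2
    obtain ⟨M, h1, h2⟩ := ((ht.eventually (gt_mem_nhds one_pos)).and
      (ht2.eventually (gt_mem_nhds (by positivity : (0 : ℝ) < c ^ 3)))).exists
    exact ⟨M, h1.le, h2⟩
  obtain ⟨u, p, hp, hper⟩ := h (2 * M + 1)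
  set g : ℕ → ℝ := fun k => (q k : ℝ) * β - n k with hg
  have hrec : ∀ k, g (k + 2) = b (k + 1) * g (k + 1) - g k
      - ((n (k + 2) + n k - b (k + 1) * n (k + 1) : ℤ) : ℝ) := by
    intro k
    simp only [hg]
    have h5 : (q (k + 2) : ℝ) = b (k + 1) * q (k + 1) - q k := by
      rw [E.qr]; push_cast; ring
    rw [h5]
    push_cast
    ring
  set w : ℕ → ℝ := fun m => g (m + p) - g m with hw
  have hwb : ∀ k, |w k| ≤ 2 * B := by
    intro k
    calc |g (k + p) - g k| ≤ |g (k + p)| + |g k| := abs_sub _ _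
      _ ≤ B + B := add_le_add (hn _) (hn _)
      _ = _ := by ring
  have hwr : ∀ k, u ≤ k → k < u + (2 * M + 1) * p → w (k + 2) = b (k + 1) * w (k + 1) - w k := by
    intro k h1 h2
    obtain ⟨h3, h4⟩ := hper k h1 h2
    have h5 := hrec k
    have h6 := hrec (k + p)
    simp only [hw]
    rw [show k + 2 + p = k + p + 2 by ring, show k + 1 + p = k + p + 1 by ring, h5, h6, h4, h3]
    ring
  obtain ⟨m, hm⟩ : ∃ m, m = u + M * p + 1 := ⟨_, rfl⟩
  have hNp : (2 * M + 1) * p = M * p + M * p + p := by ring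
  have hwin := window hc hc1 E hbad w u m (u + (2 * M + 1) * p) (by omega) (by omega) (2 * B)
    (by linarith) hwb hwr
  have e1 : m - (u + 1) = M * p := by omega
  have e2 : M * p ≤ u + (2 * M + 1) * p - m := by omega
  have hpw : (1 - c) ^ (u + (2 * M + 1) * p - m) ≤ (1 - c) ^ (M * p) :=
    pow_le_pow_of_le_one h1c (by linarith) e2
  rw [e1] at hwin
  have hwm : c * |w m| ≤ 8 * B * (1 - c) ^ (M * p) := by
    refine hwin.trans ?_
    have h0 : 0 ≤ (1 - c) ^ (M * p) := by positivity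
    nlinarith
  -- the denominator
  obtain ⟨pp, hpp⟩ := E.integ
  have hqlt : q m < q (m + p) := E.qmono (by omega)
  have hq0 := (E.qstep m).1
  obtain ⟨Qn, hQn⟩ := Int.eq_ofNat_of_zero_le (show 0 ≤ q (m + p) - q m by omega)
  have hQn0 : 0 < Qn := by omega
  have hQr : (Qn : ℝ) = q (m + p) - q m := by
    have : ((q (m + p) - q m : ℤ) : ℝ) = ((Qn : ℤ) : ℝ) := by rw [hQn]
    rw [Int.cast_natCast] at this
    rw [← this]
    push_cast
    ring
  have hD1 : |(Qn : ℝ) * α - round ((Qn : ℝ) * α)| ≤ D m := by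
    refine (round_le ((Qn : ℝ) * α) (pp (m + p) - pp m)).trans ?_
    have : (Qn : ℝ) * α - ((pp (m + p) - pp m : ℤ) : ℝ) = D (m + p) - D m := by
      rw [hQr, hpp, hpp]; push_cast; ring
    rw [this, abs_le]
    have h1 := E.pos (m + p)
    have h2 : D (m + p) ≤ D m := E.anti (by omega)
    have h3 := E.pos m
    constructor <;> linarith
  have hD2 : |(Qn : ℝ) * β - round ((Qn : ℝ) * β)| ≤ |w m| := by
    refine (round_le ((Qn : ℝ) * β) (n (m + p) - n m)).trans (le_of_eq ?_)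
    congr 1
    simp only [hw, hg]
    rw [hQr]
    push_cast
    ring
  have hQle : (Qn : ℝ) ≤ q (m + p) := by
    have : (0 : ℝ) ≤ q m := by exact_mod_cast hq0
    rw [hQr]
    linarith
  have hfin := hprod Qn hQn0
  have hDm := E.pos m
  have hqm := E.qnonneg (m + p)
  have key : c ≤ q (m + p) * D m * |w m| := by
    refine hfin.trans ?_
    gcongr
  have hrat := ratio_pow hc E hbad m p
  rw [← hL] at hrat
  have hup := qd_upper hc E hbad (m + p)
  have hw0 := abs_nonneg (w m)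
  have hA : c * (q (m + p) * D m) ≤ L ^ p := by
    calc c * (q (m + p) * D m) ≤ c * (q (m + p) * (L ^ p * D (m + p))) := by gcongr
      _ = L ^ p * (c * (q (m + p) * D (m + p))) := by ring
      _ ≤ L ^ p * 1 := by gcongr
      _ = _ := mul_one _
  have hfinal : c ^ 3 ≤ 8 * B * (L * (1 - c) ^ M) := by
    calc c ^ 3 = c ^ 2 * c := by ring
      _ ≤ c ^ 2 * (q (m + p) * D m * |w m|) := by gcongr
      _ = (c * (q (m + p) * D m)) * (c * |w m|) := by ring
      _ ≤ L ^ p * (8 * B * (1 - c) ^ (M * p)) := by gcongr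
      _ = 8 * B * (L * (1 - c) ^ M) ^ p := by rw [mul_pow, ← pow_mul]; ring
      _ ≤ 8 * B * (L * (1 - c) ^ M) := by
          have h1 : (L * (1 - c) ^ M) ^ p ≤ L * (1 - c) ^ M := by
            have h2 : 0 ≤ L * (1 - c) ^ M := by positivity
            calc (L * (1 - c) ^ M) ^ p ≤ (L * (1 - c) ^ M) ^ 1 :=
                  pow_le_pow_of_le_one h2 hM1 hp
              _ = _ := pow_one _
          gcongr
  linarith

/-- **High powers in digit expansions.** -/
theorem powers_digits (E : Exp α a₀ b q D) (x : ℕ → ℤ) (B : ℝ) (hx : ∀ k, |(x k : ℝ)| ≤ B)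
    (h : ∀ N : ℕ, ∃ u p : ℕ, 1 ≤ p ∧ ∀ k, u ≤ k → k < u + N * p →
      b (k + p + 1) = b (k + 1) ∧ x (k + p + 1) = x (k + 1)) : LC α (∑' k, (x k : ℝ) * D k) := by
  by_contra hcon
  obtain ⟨c, hc, hc1, hbad, -⟩ := bad_of_not_lc hcon
  obtain ⟨p, hp, hpr, hw⟩ := E.integ'
  refine hcon (powers E _ (2 * B / c ^ 2) (nn q p x) (nn_bound hc E hbad hp x B hx) ?_)
  intro N
  obtain ⟨u, p', h1, h2⟩ := h N
  refine ⟨u, p', h1, fun k hk1 hk2 => ?_⟩
  obtain ⟨h3, h4⟩ := h2 k hk1 hk2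
  exact ⟨h3, by rw [nn_rec E hpr hw, nn_rec E hpr hw, h4]⟩

end Run7.h952.LW
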